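import Pool.Agent.H6.LD.Stm

/-! Crew LD (MP_d5a689_co, Q2), part FOU: trigonometric polynomials approximate the indicator
function of a periodic interval in `L¹` of a period. -/

set_option autoImplicit false
open MeasureTheory Set Filter Topology
open scoped ENNReal Real

namespace Pool.Agent.H44.LD
open Pool.Agent.H6.LD

lemma ind_meas (w a : ℝ) : Measurable (ind w a) := by
  unfold ind
  exact Measurable.ite (measurableSet_lt (measurable_fract.comp (measurable_id.div_const w))
    measurable_const) measurable_const measurable_const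

theorem t_FOU : S_FOU := by
  intro w a hw ha0 ha1 ε hε
  have _hF : Fact (0 < w) := ⟨hw⟩
  let F : AddCircle w → ℂ := fun x =>
    ind w a ((AddCircle.measurableEquivIco w 0 x : Ico (0:ℝ) (0 + w)) : ℝ)
  have hFm : Measurable F := (ind_meas w a).comp
    (measurable_subtype_coe.comp (AddCircle.measurableEquivIco w 0).measurable)
  have hFt : ∀ t : ℝ, F (t : AddCircle w) = ind w a t := by
    intro t
    have h1 : ((AddCircle.measurableEquivIco w 0 (t : AddCircle w) : Ico (0:ℝ) (0 + w)) : ℝ)
        = Int.fract (t / w) * w := AddCircle.coe_equivIco_mk_apply w t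
    simp only [F, h1, ind]
    rw [mul_div_assoc, div_self hw.ne', mul_one, Int.fract_fract]
  have hFb : ∀ x, ‖F x‖ ≤ 1 := by
    intro x
    simp only [F, ind]
    split_ifs <;> simp
  have hFL : MemLp F 1 (@AddCircle.haarAddCircle w _) :=
    MemLp.of_bound hFm.aestronglyMeasurable 1 (ae_of_all _ hFb)
  have hdense := span_fourierLp_closure_eq_top (T := w) (p := 1) ENNReal.one_ne_top
  have hmem : hFL.toLp F ∈
      (Submodule.span ℂ (range (@fourierLp w _ 1 _))).topologicalClosure := by
    rw [hdense]; trivial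
  rw [← SetLike.mem_coe, Submodule.topologicalClosure_coe, Metric.mem_closure_iff] at hmem
  obtain ⟨g, hg, hdist⟩ := hmem (ε / w) (by positivity)
  -- `g` comes from a trigonometric polynomial
  have hg2 : ∃ h : C(AddCircle w, ℂ), h ∈ Submodule.span ℂ (range (@fourier w)) ∧
      ContinuousMap.toLp (E := ℂ) 1 (@AddCircle.haarAddCircle w _) ℂ h = g := by
    have e : Submodule.span ℂ (range (@fourierLp w _ 1 _)) =
        (Submodule.span ℂ (range (@fourier w))).map
          (ContinuousMap.toLp (E := ℂ) 1 (@AddCircle.haarAddCircle w _) ℂ).toLinearMap := by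
      rw [Submodule.map_span, ← range_comp]
      rfl
    rw [SetLike.mem_coe, e, Submodule.mem_map] at hg
    obtain ⟨h, hh, hh2⟩ := hg
    exact ⟨h, hh, hh2⟩
  obtain ⟨h, hh, rfl⟩ := hg2
  refine ⟨fun t : ℝ => h (t : AddCircle w), ?_, ?_, ?_⟩
  · -- membership
    refine Submodule.span_induction (p := fun (h : C(AddCircle w, ℂ)) _ =>
      (fun t : ℝ => h (t : AddCircle w)) ∈ ES (Mw w)) ?_ ?_ ?_ ?_ hh
    · rintro _ ⟨n, rfl⟩
      refine Submodule.subset_span ⟨n • (2 * π / w), ?_, ?_⟩
      · exact AddSubgroup.mem_zmultiples_iff.2 ⟨n, rfl⟩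
      · funext t
        rw [fourier_coe_apply]
        simp only [expo]
        congr 1
        push_cast [zsmul_eq_mul]
        ring
    · exact (ES (Mw w)).zero_mem
    · intro x y _ _ hx hy
      exact (ES (Mw w)).add_mem hx hy
    · intro c x _ hx
      exact (ES (Mw w)).smul_mem c hx
  · intro t
    simp
  · -- the integral
    have h1 : (∫ t in (0 : ℝ)..w, ‖ind w a t - h (t : AddCircle w)‖) =
        ∫ b : AddCircle w, ‖F b - h b‖ := by
      have := AddCircle.intervalIntegral_preimage w 0 (fun b : AddCircle w => ‖F b - h b‖)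
      rw [zero_add] at this
      rw [← this]
      simp only [hFt]
    rw [h1, AddCircle.volume_eq_smul_haarAddCircle, integral_smul_measure,
      ENNReal.toReal_ofReal hw.le]
    rw [dist_eq_norm, L1.norm_eq_integral_norm] at hdist
    have h2 : (∫ b, ‖(hFL.toLp F - ContinuousMap.toLp (E := ℂ) 1
        (@AddCircle.haarAddCircle w _) ℂ h) b‖ ∂(@AddCircle.haarAddCircle w _)) =
        ∫ b, ‖F b - h b‖ ∂(@AddCircle.haarAddCircle w _) := by
      refine integral_congr_ae ?_
      filter_upwards [Lp.coeFn_sub (hFL.toLp F) (ContinuousMap.toLp (E := ℂ) 1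
        (@AddCircle.haarAddCircle w _) ℂ h), hFL.coeFn_toLp,
        ContinuousMap.coeFn_toLp (p := 1) (𝕜 := ℂ) (@AddCircle.haarAddCircle w _) h] with b h3 h4 h5
      rw [h3, Pi.sub_apply, h4, h5]
    rw [h2] at hdist
    rw [smul_eq_mul]
    calc w * _ ≤ w * (ε / w) := mul_le_mul_of_nonneg_left hdist.le hw.le
      _ = ε := by field_simp

end Pool.Agent.H44.LD
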